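import Pool.Agent.helper52.ED.All
import Pool.Agent.helper94.MA.FIN2
import Pool.Agent.helper94.MA.THA
import Pool.Agent.helper94.MA.CORE
import Pool.Agent.helper26.MA.SUMR
import Pool.Agent.helper36.MS.Mass
import Pool.Agent.helper3.MS.LOSS
import Pool.Agent.helper95.MM.LANDAU
import Pool.Agent.helper97.DH.COP
import Pool.Agent.helper96.DH.BTP
import Pool.Agent.helper45.DH.TSG
import Pool.Agent.helper24.DH.TOW
import Pool.Agent.helper60.DH.FAE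
import Pool.Agent.helper93.DH.ARG
import Pool.Agent.helper93.DH.CNS
import Pool.Agent.helper61.DH.EN1
import Pool.Agent.helper58.DH.TYQ
import Pool.Agent.helper87.DH.ETB
import Pool.Agent.helper21.DH.PCK
import Pool.Agent.helper29.DH.LBV
import Pool.Agent.helper71.DH.AFX
import Pool.Agent.helper11.DH.INR
import Pool.Agent.helper51.DH.NLI
import Pool.Agent.helper97.DH.LFT
import Pool.Agent.helper57.DH.CVX
import Pool.Agent.helper13.NZ.CFR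
import Pool.Agent.helper15.NZ.LAM
import Pool.Agent.helper24.NZ.SCL
import Pool.Agent.helper87.NZ.MON
import Pool.Agent.helper62.NR.LMZ
import Pool.Agent.helper70.EX.DEN
import Pool.Agent.helper26.UP.All

/-!
# Density of hyperbolicity for `z ^ n + c`: assembly (mm: route)
-/

set_option autoImplicit false

open Pool.Agent.helper98.ILF Pool.Agent.helper16.Multibrot

noncomputable section

namespace FD

theorem COP_f : DH.COP_stmt := DH.COP V3A.KO0_v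
theorem BTP_f : DH.BTP_stmt := DH.BTP COP_f HY.VKB_y HY.MOB_y
theorem TSG_f : DH.TSG_stmt := DH.TSG HY.VKB_y
theorem TOW_f : DH.TOW_stmt := DH.TOW HY.RMI_y HY.RMC_y HY.VKB_y
theorem FAE_f : DH.FAE_stmt := DH.FAE COP_f
theorem INR_f : DH.INR_stmt := DH.INR HY.VKB_y
theorem NLI_f : DH.NLI_stmt := DH.NLI V3A.KO0_v
theorem ARG_f : DH.ARG_stmt := DH.ARG V3A.KO0_v V3A.KO3_v
theorem CVX_f : DH.CVX_stmt := DH.CVX V3A.KO3_v
theorem PUL_f : DH.PUL_stmt := DH.PUL CVX_f ARG_f V3A.KO0_v V3A.KO3_v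
theorem CFR_f : NZ.CFR_stmt := NZ.CFR HY.VKB_y V3A.KO0_v
theorem MON_f : NZ.MON_stmt := NZ.MON HY.VKB_y V3A.KO0_v
theorem SCL_f : NZ.SCL_stmt := NZ.SCL CFR_f MON_f HY.VKB_y V3A.KO0_v V3A.KO1_v
theorem LMZ_f : NR.LMZ_stmt := NR.LMZ V3A.KO0_v V3A.KO1_v V3A.KO3_v
theorem LAM_f : NZ.LAM_stmt := NZ.LAM HY.CLB_y HY.SHR_y HY.SGE_y HY.VKB_y HY.HDI_y V3A.KO0_v V3A.KO1_v BR.bridge LMZ_f
theorem CON_f : DH.CON_stmt := DH.CON CVX_f ARG_f NLI_f INR_f SCL_f V3A.KO0_v V3A.KO1_v V3A.KO3_v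
theorem LFT_f : DH.LFT_stmt := DH.LFT FAE_f BTP_f TSG_f HY.RMI_y HY.MOB_y HY.HDI_y HY.VKB_y V3A.KO0_v V3A.KO3_v
theorem EN1_f : DH.EN1_stmt := DH.EN1 LFT_f PUL_f NLI_f INR_f V3A.KO0_v V3A.KO1_v
theorem TYQ_f : DH.TYQ_stmt := DH.TYQ BR.bridge LAM_f EX.DEN UP.NRP
theorem LBV_f : DH.LBV_stmt := DH.LBV DH.AFX BTP_f COP_f V3A.KO0_v V3A.KO1_v HY.MOB_y HY.VKB_y
theorem ETB_f : DH.ETB_stmt := DH.ETB DH.PCK LBV_f BTP_f
theorem CORE_f : MA.CORE_stmt := MA.CORE HY.MOB_y MS.MASS MS.LOSS MS.LANDAU MA.SUMR MA.SQR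
theorem THA_f : MA.THA_stmt := MA.THA HY.MOB_y HY.HDI_y V3A.KO3_v COP_f BTP_f ETB_f CORE_f

/-- DENSITY OF HYPERBOLICITY. -/
theorem FIN_f : DH.FIN_stmt := MA.FIN2 ED.CLM_e (ED.PS_e COP_f BTP_f TSG_f) (ED.CTG_e COP_f BTP_f TSG_f) THA_f TOW_f FAE_f CON_f
  EN1_f TYQ_f

end FD
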